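import Pool.Agent.H60.DTO.Fields

/-!
Khot's d-to-1 conjecture: the combination of the basic semidefinite relaxation and of the affine
integer relaxation of satisfiable d-to-1 Label Cover has gap instances, for every `d ≥ 2`, whose
value is a fixed negative power of the number of labels.
-/

namespace Pool.Agent.H60.Kept.SdpAipGap

open Finset Pool.Agent.H76.DTO Pool.Agent.H60.DTO

noncomputable section

/-- **Gap instances for d-to-1 Label Cover which are accepted by the combined semidefinite and
affine relaxation and have value polynomially small in the number of labels.** -/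
theorem result : ∀ d n : ℕ, 2 ≤ d → 0 < n → ∃ R : ℕ, n ≤ R ∧ R ≤ 8 * n ∧
    ∃ (V W : Type) (_ : Fintype V) (_ : Fintype W) (Φ : LabelCover V W d R) (N : ℕ)
      (S : PerfectSolution Φ N) (T : AffineSolution Φ 1), Φ.E.Nonempty ∧ S.CommonSum ∧
        Compatible S T ∧ Φ.value ≤ 10 * (R : ℝ) ^ (-(1 / 15) : ℝ) := by
  intro d n hd hn
  obtain ⟨R, h1, h2, V, W, hV, hW, Φ, N, S, T, h3, h4, h5, h6⟩ := gap d n hd hn
  refine ⟨R, h1, h2, V, W, hV, hW, Φ, N, S, T, h3, h4, h5, ?_⟩
  have hR : 0 < R := by omega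
  have : Nonempty (Fin R) := ⟨⟨0, hR⟩⟩
  have : Nonempty (Fin (d * R)) := ⟨⟨0, Nat.mul_pos (by omega) hR⟩⟩
  exact ciSup_le fun fg => h6 fg.1 fg.2

end

end Pool.Agent.H60.Kept.SdpAipGap
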